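import Mathlib
import Pool.Agent.TH789.BC.Final

/-!
MP_73700b_an (partial answer): no infinite-dimensional real Hilbert space, of any density, has a
point-finite covering by closed balls of positive (arbitrary) radii.

Method. For a ball with centre `c` and radius `r` put `f(x) = 2⟪c, x⟫ - ‖c‖² + r²`, an affine
function; `x` lies in the ball when `f(x) ≥ ‖x‖²`. For a point-finite covering the supremum `F` of
these functions is attained, finite and continuous, and near a point with `F(x) > ‖x‖²` it is the
maximum of the finitely many functions active at `x`. Infinite dimension gives, in every nonempty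
face `Φ_s` (the set where all `f`, for the balls in a finite set `s`, are equal to `F`), points with
`F(x) = ‖x‖²`, which lie in the interior of no ball. A Baire argument gives a relatively open set of
such points near which there are always infinitely many balls of radius at least some `ρ > 0`. Near
such a point the finite set `s` can be enlarged by one ball, keeping `Φ_s` nonempty. The faces so
obtained are nested, nonempty, bounded, closed and convex, and a common point lies in infinitely
many balls.
-/

set_option autoImplicit false

namespace Pool.Agent.Results.MP_73700b_an.HilbertBallCoverings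

/-- Let `H` be a real Hilbert space of infinite dimension (its density is arbitrary). If a family
of subsets of `H`, each of them a closed ball of positive radius, has union `H`, then some point of
`H` lies in infinitely many members of the family. -/
theorem result (H : Type*) [NormedAddCommGroup H] [InnerProductSpace ℝ H] [CompleteSpace H]
    (hinf : ¬ FiniteDimensional ℝ H) (F : Set (Set H))
    (hball : ∀ A ∈ F, ∃ (c : H) (r : ℝ), 0 < r ∧ A = Metric.closedBall c r)
    (hcov : ⋃₀ F = Set.univ) :
    ∃ x : H, {A | A ∈ F ∧ x ∈ A}.Infinite := by
  classical
  by_contra hcon
  push Not at hcon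
  choose! c r hr hA using hball
  have hB : TH789.BC.Cov ((fun A => (c A, r A)) '' F) := by
    refine ⟨?_, ?_, ?_⟩
    · rintro _ ⟨A, hAF, rfl⟩
      exact hr A hAF
    · intro x
      obtain ⟨A, hAF, hx⟩ := Set.mem_sUnion.1 (hcov ▸ Set.mem_univ x)
      refine ⟨_, ⟨A, hAF, rfl⟩, ?_⟩
      rw [hA A hAF, Metric.mem_closedBall, dist_eq_norm] at hx
      exact hx
    · intro x
      have hfin : {A | A ∈ F ∧ x ∈ A}.Finite := hcon x
      refine (hfin.image fun A => (c A, r A)).subset ?_
      rintro _ ⟨⟨A, hAF, rfl⟩, hx⟩
      refine ⟨A, ⟨hAF, ?_⟩, rfl⟩
      rw [hA A hAF, Metric.mem_closedBall, dist_eq_norm]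
      exact hx
  exact TH789.BC.no_cov hinf hB

end Pool.Agent.Results.MP_73700b_an.HilbertBallCoverings
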