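import Mathlib
import Pool.Agent.TH789.PV.Step

/-!
MP_73700b_an (partial answer, negative direction): in an infinite-dimensional Hilbert space, of any
density, no tiling by the Voronoi cells of a separated, relatively dense set is point-finite; the same
for power diagrams with separated slopes one of whose cells is bounded and has an interior point.

Method. Let `S` be a finite set of indices whose cells have a common regular point, that is, the face
`Φ` of `S` has an interior point relative to the affine subspace `L` (of finite codimension) on which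
the affine functions with index in `S` agree. The largest ball of `L` inside `Φ` about an interior
point `p` close to the boundary need not touch a wall of `Φ`. Let `h` be an almost closest wall. If
`p` is moved towards `h`, all walls that are almost closest to the new point are almost parallel to
`h`; the corresponding slopes lie near a finite-dimensional subspace, so by separation there are only
finitely many, and the largest ball about the new point touches one of them, at a regular point of a
smaller face. Repeating this gives a decreasing sequence of nonempty bounded closed convex faces,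
and a common point lies in infinitely many cells.
-/

set_option autoImplicit false

namespace Pool.Agent.Results.MP_73700b_an.VoronoiTilings

open TH789.PV

/-- Let `H` be a real Hilbert space of infinite dimension (its density is arbitrary).

(a) Let `x ↦ ⟪s i, x⟫ + c i` be affine functions whose supremum is finite everywhere and whose slopes
`s i` are separated: `‖s i - s j‖ ≥ δ > 0` for `i ≠ j`. If the cell of some index `i₀` (the set where
that function is the largest one) has an interior point and is bounded, then some point of `H` lies in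
the cells of infinitely many indices.

(b) If `D` is separated and every point of `H` is at distance at most `R` from a point of `D`, then
some point of `H` has infinitely many nearest points in `D`, that is, lies in infinitely many Voronoi
cells of `D`. -/
theorem result (H : Type*) [NormedAddCommGroup H] [InnerProductSpace ℝ H] [CompleteSpace H]
    (hinf : ¬ FiniteDimensional ℝ H) :
    (∀ (ι : Type*) (s : ι → H) (c : ι → ℝ) (δ : ℝ), 0 < δ →
      (∀ i j, i ≠ j → δ ≤ ‖s i - s j‖) →
      (∀ x : H, ∃ M : ℝ, ∀ i, inner ℝ (s i) x + c i ≤ M) →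
      ∀ i₀ : ι, (interior {x : H | ∀ j, inner ℝ (s j) x + c j ≤ inner ℝ (s i₀) x + c i₀}).Nonempty →
        Bornology.IsBounded {x : H | ∀ j, inner ℝ (s j) x + c j ≤ inner ℝ (s i₀) x + c i₀} →
        ∃ x : H, {i | ∀ j, inner ℝ (s j) x + c j ≤ inner ℝ (s i) x + c i}.Infinite) ∧
    (∀ (D : Set H) (δ R : ℝ), 0 < δ → (∀ d ∈ D, ∀ d' ∈ D, d ≠ d' → δ ≤ ‖d - d'‖) →
      (∀ x : H, ∃ d ∈ D, ‖x - d‖ ≤ R) →
        ∃ x : H, {d | d ∈ D ∧ ∀ d' ∈ D, ‖x - d‖ ≤ ‖x - d'‖}.Infinite) := by
  refine ⟨?_, ?_⟩
  · intro ι s c δ hδ hsep hbdd i₀ hint hb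
    obtain ⟨R, hR⟩ := (Metric.isBounded_iff_subset_closedBall (0 : H)).1 hb
    refine infinite_cells (s := s) (c := c) (i₀ := i₀) (R := R) hinf hδ hsep hbdd ?_ hint
    intro x hx
    have := hR hx
    rwa [Metric.mem_closedBall, dist_zero_right] at this
  · intro D δ R hδ hsep hdense
    have key : ∀ (d x : H), inner ℝ ((2 : ℝ) • d) x + -‖d‖ ^ 2 = ‖x‖ ^ 2 - ‖x - d‖ ^ 2 := by
      intro d x
      rw [norm_sub_sq_real, inner_smul_left, real_inner_comm]
      simp only [conj_trivial]
      ring
    obtain ⟨d₀, hd₀, -⟩ := hdense 0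
    obtain ⟨x, hx⟩ := infinite_cells (ι := D) (s := fun d => (2 : ℝ) • (d : H))
      (c := fun d => -‖(d : H)‖ ^ 2) (i₀ := ⟨d₀, hd₀⟩) (R := R + ‖d₀‖) hinf hδ (fun i j hij => by
        have h1 := hsep i i.2 j j.2 fun h => hij (Subtype.ext h)
        have h2 := norm_nonneg ((i : H) - j)
        rw [← smul_sub, norm_smul, Real.norm_of_nonneg (by norm_num)]
        linarith)
      (fun x => ⟨‖x‖ ^ 2, fun i => by
        show inner ℝ ((2 : ℝ) • (i : H)) x + -‖(i : H)‖ ^ 2 ≤ ‖x‖ ^ 2
        rw [key]
        have : 0 ≤ ‖x - (i : H)‖ ^ 2 := by positivity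
        linarith⟩)
      (fun x hx => by
        obtain ⟨d, hd, hdR⟩ := hdense x
        have h1 : inner ℝ ((2 : ℝ) • d) x + -‖d‖ ^ 2 ≤ inner ℝ ((2 : ℝ) • d₀) x + -‖d₀‖ ^ 2 :=
          hx ⟨d, hd⟩
        rw [key, key] at h1
        have h2 : ‖x - d₀‖ ^ 2 ≤ ‖x - d‖ ^ 2 := by linarith
        have h3 : ‖x - d₀‖ ≤ ‖x - d‖ :=
          (pow_le_pow_iff_left₀ (norm_nonneg _) (norm_nonneg _) two_ne_zero).1 h2
        have h4 : x = (x - d₀) + d₀ := by abel
        rw [h4]
        refine (norm_add_le _ _).trans ?_
        linarith)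
      (by
        refine ⟨d₀, ?_⟩
        rw [mem_interior_iff_mem_nhds, Metric.mem_nhds_iff]
        refine ⟨δ / 2, by positivity, fun x hx j => ?_⟩
        show inner ℝ ((2 : ℝ) • (j : H)) x + -‖(j : H)‖ ^ 2 ≤
          inner ℝ ((2 : ℝ) • d₀) x + -‖d₀‖ ^ 2
        rw [key, key]
        rw [Metric.mem_ball, dist_eq_norm] at hx
        have h1 : ‖x - d₀‖ ≤ ‖x - (j : H)‖ := by
          by_cases hj : (j : H) = d₀
          · rw [hj]
          · have h2 := hsep j j.2 d₀ hd₀ hj
            have h3 : (j : H) - d₀ = (x - d₀) - (x - j) := by abel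
            rw [h3] at h2
            have h4 := norm_sub_le (x - d₀) (x - (j : H))
            linarith
        have h2 : ‖x - d₀‖ ^ 2 ≤ ‖x - (j : H)‖ ^ 2 := by gcongr
        linarith)
    refine ⟨x, ?_⟩
    have himg := hx.image (f := fun i : D => (i : H)) Subtype.val_injective.injOn
    refine himg.mono ?_
    rintro _ ⟨i, hi, rfl⟩
    refine ⟨i.2, fun d' hd' => ?_⟩
    have h1 : inner ℝ ((2 : ℝ) • d') x + -‖d'‖ ^ 2 ≤
      inner ℝ ((2 : ℝ) • (i : H)) x + -‖(i : H)‖ ^ 2 := hi ⟨d', hd'⟩
    rw [key, key] at h1
    have h2 : ‖x - (i : H)‖ ^ 2 ≤ ‖x - d'‖ ^ 2 := by linarith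
    exact (pow_le_pow_iff_left₀ (norm_nonneg _) (norm_nonneg _) two_ne_zero).1 h2

end Pool.Agent.Results.MP_73700b_an.VoronoiTilings
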